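import Pool.Agent.U913.OC.Main

set_option autoImplicit false

/-!
# Path odd-covers of Eulerian graphs of maximum degree four

Every finite simple graph with all degrees even and maximum degree four has a path odd-cover with
three paths: three paths in the complete graph on its vertices such that the pairs covered an odd
number of times are exactly the edges. This is the question of MP_4dfdc8_co (Q1), answered
positively.
-/

namespace Pool.Agent.Results.MP_4dfdc8_co.PathOddCover

open Pool.Agent.U913.OC

/-- `G` has a path odd-cover with `k` paths of the complete graph. -/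
def HasPathOddCover {V : Type} (G : SimpleGraph V) (k : ℕ) : Prop :=
  ∃ (u w : Fin k → V) (P : ∀ i : Fin k, (⊤ : SimpleGraph V).Walk (u i) (w i)),
    (∀ i, (P i).IsPath) ∧
    ∀ e : Sym2 V, Odd (Nat.card {i : Fin k // e ∈ (P i).edges}) ↔ e ∈ G.edgeSet

/-- Every finite graph with even degrees and maximum degree four has a path odd-cover with three
paths. -/
theorem result {V : Type} [Fintype V] (G : SimpleGraph V) [DecidableRel G.Adj]
    (heven : ∀ v, Even (G.degree v)) (hmax : G.maxDegree = 4) : HasPathOddCover G 3 := by
  classical
  have h4 : ∀ v, dg G v ≤ 4 := by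
    intro v
    rw [dg_eq_degree, ← hmax]
    exact G.degree_le_maxDegree v
  have hex : ∃ v, dg G v = 4 := by
    have hne : Nonempty V := by
      by_contra hV
      rw [not_nonempty_iff] at hV
      have : G.maxDegree = 0 := G.maxDegree_of_subsingleton
      omega
    obtain ⟨v, hv⟩ := G.exists_maximal_degree_vertex
    exact ⟨v, by rw [dg_eq_degree, ← hv, hmax]⟩
  obtain ⟨A, B, C, hT, ho⟩ := exists_tri G (fun v => by rw [dg_eq_degree]; exact heven v) h4 hex
  obtain ⟨u, w, P, hP, hcov⟩ := hT.cover ho
  refine ⟨u, w, P, hP, fun e => ?_⟩
  rw [← hcov e, Nat.card_eq_fintype_card, Fintype.card_subtype]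

end Pool.Agent.Results.MP_4dfdc8_co.PathOddCover
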